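import Pool.Agent.Helper72.AI.Stmts

set_option autoImplicit false

namespace Helper67.AI

open AffInc Filter Topology

lemma nrm_add (θ : ℝ) (p q : ℝ × ℝ) : nrm θ (p + q) = nrm θ p + nrm θ q := by
  simp [nrm]; ring

lemma nrm_smul (θ c : ℝ) (p : ℝ × ℝ) : nrm θ (c • p) = c * nrm θ p := by
  simp [nrm]; ring

lemma nrm_dir (θ : ℝ) : nrm θ (dir θ) = 0 := by
  simp [nrm, dir]; ring

lemma key {G : Set (ℝ × ℝ)} (hG : Convex ℝ G) (θ : ℝ) {U V : ℝ × ℝ} (hU : U ∈ G)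
    (hV : V ∈ interior G) (hf : nrm θ U = nrm θ V) :
    ∃ w : ℝ × ℝ, nrm θ w < 0 ∧ U + w ∈ G ∧ V + w ∈ G := by
  set d : ℝ × ℝ := (Real.sin θ, -Real.cos θ) with hd
  have hfd : nrm θ d = -1 := by
    simp only [nrm, hd]
    nlinarith [Real.sin_sq_add_cos_sq θ]
  have hnV : G ∈ 𝓝 V := mem_interior_iff_mem_nhds.1 hV
  -- a lower point near V
  have h1 : Tendsto (fun δ : ℝ => V + δ • d) (𝓝[>] 0) (𝓝 V) := by
    have : Tendsto (fun δ : ℝ => V + δ • d) (𝓝 0) (𝓝 (V + (0:ℝ) • d)) := by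
      apply Continuous.tendsto
      fun_prop
    rw [zero_smul, add_zero] at this
    exact this.mono_left nhdsWithin_le_nhds
  obtain ⟨δ, hδ, hδ0⟩ := ((h1.eventually hnV).and self_mem_nhdsWithin).exists
  have hδ0 : 0 < δ := hδ0
  set R := V + δ • d with hR
  have hR' : R ∈ G := hδ
  have h2 : Tendsto (fun μ : ℝ => V + μ • (R - U)) (𝓝[>] 0) (𝓝 V) := by
    have : Tendsto (fun μ : ℝ => V + μ • (R - U)) (𝓝 0) (𝓝 (V + (0:ℝ) • (R - U))) := by
      apply Continuous.tendsto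
      fun_prop
    rw [zero_smul, add_zero] at this
    exact this.mono_left nhdsWithin_le_nhds
  have h3 : ∀ᶠ μ : ℝ in 𝓝[>] 0, μ < 1 := by
    have : ∀ᶠ μ : ℝ in 𝓝 0, μ < 1 := eventually_lt_nhds (by norm_num)
    exact this.filter_mono nhdsWithin_le_nhds
  obtain ⟨μ, ⟨hμ1, hμ2⟩, hμ0⟩ := (((h2.eventually hnV).and h3).and self_mem_nhdsWithin).exists
  have hμ0 : 0 < μ := hμ0
  refine ⟨μ • (R - U), ?_, ?_, hμ1⟩
  · have e1 : nrm θ (R - U) = -δ := by
      have : R - U = R + (-1 : ℝ) • U := by simp [sub_eq_add_neg]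
      rw [this, nrm_add, nrm_smul, hR, nrm_add, nrm_smul, hfd, hf]
      ring
    rw [nrm_smul, e1]
    nlinarith
  · have : U + μ • (R - U) = (1 - μ) • U + μ • R := by
      rw [smul_sub, sub_smul, one_smul]; abel
    rw [this]
    exact hG hU hR' (by linarith) hμ0.le (by ring)

theorem pf_S_bdry : AffInc.S_bdry := by
  intro G L P _ hF _ hlow θ a ha0 ha1
  have ha : a ∈ Set.Icc (0:ℝ) 1 := ⟨ha0.le, ha1.le⟩
  have hm := hlow.mem θ a ha
  have hm' := hlow.mem' θ a ha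
  have hl := hlow.low θ a ha
  have hcl : IsClosed G := hF.cpt.isClosed
  have e0 : nrm θ (P (θ, a) + (a * L θ) • dir θ) = nrm θ (P (θ, a)) := by
    rw [nrm_add, nrm_smul, nrm_dir]; ring
  rw [hcl.frontier_eq]
  refine ⟨⟨hm, fun hi => ?_⟩, ⟨hm', fun hi => ?_⟩⟩
  · obtain ⟨w, hw, h1, h2⟩ := key hF.cvx θ hm' hi e0
    have := (hl (P (θ, a) + w) h2 (by
      rw [add_right_comm]; exact h1)).1
    rw [nrm_add] at this
    linarith
  · obtain ⟨w, hw, h1, h2⟩ := key hF.cvx θ hm hi e0.symm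
    have := (hl (P (θ, a) + w) h1 (by
      rw [add_right_comm]; exact h2)).1
    rw [nrm_add] at this
    linarith

end Helper67.AI
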